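import Pool.Agent.Run7.h427.PL.Glue

/-!
# Stable commutants, and general families of open subgroups
-/

set_option autoImplicit false

namespace Run7.h427.PL

open Matrix Run7.h427.DS

variable {Γ : Type} [Group Γ] [TopologicalSpace Γ] [IsTopologicalGroup Γ] [CompactSpace Γ]
  {k : Type} [Field k] {n : ℕ}

/-- **Stable subgroup.**  `N` is contained in `H`, and a matrix which commutes with the image of an
open subgroup of `N` commutes with the image of `N`. -/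
def Stable (H : Subgroup Γ) (ρ : H →* GL (Fin n) k) (N : Subgroup Γ) : Prop :=
  N ≤ H ∧ ∀ U : Subgroup Γ, IsOpen (U : Set Γ) → U ≤ N → ∀ A : Matrix (Fin n) (Fin n) k,
    (∀ x : H, (x : Γ) ∈ U → (ρ x : Matrix (Fin n) (Fin n) k) * A = A * ρ x) →
      ∀ x : H, (x : Γ) ∈ N → (ρ x : Matrix (Fin n) (Fin n) k) * A = A * ρ x

/-- the commutant of a subgroup -/
def commutant (H : Subgroup Γ) (ρ : H →* GL (Fin n) k) (U : Subgroup Γ) :
    Submodule k (Matrix (Fin n) (Fin n) k) where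
  carrier := {A | ∀ x : H, (x : Γ) ∈ U → (ρ x : Matrix (Fin n) (Fin n) k) * A = A * ρ x}
  add_mem' {a b} ha hb := fun x hx => by rw [mul_add, add_mul, ha x hx, hb x hx]
  zero_mem' := fun x _ => by rw [mul_zero, zero_mul]
  smul_mem' c a ha := fun x hx => by rw [mul_smul_comm, smul_mul_assoc, ha x hx]

theorem commutant_mono (H : Subgroup Γ) (ρ : H →* GL (Fin n) k) {U V : Subgroup Γ} (h : U ≤ V) :
    commutant H ρ V ≤ commutant H ρ U := fun _ hA x hx => hA x (h hx)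

omit [CompactSpace Γ] in
theorem core_open (U : Subgroup Γ) (hU : IsOpen (U : Set Γ)) (hfi : U.FiniteIndex) :
    IsOpen (U.normalCore : Set Γ) := by
  have hcl : IsClosed (U.normalCore : Set Γ) := by
    have h1 : (U.normalCore : Set Γ) = ⋂ g : Γ, (fun x => g * x * g⁻¹) ⁻¹' (U : Set Γ) := by
      ext x
      rw [Set.mem_iInter]
      rfl
    rw [h1]
    refine isClosed_iInter fun g => IsClosed.preimage ?_ (U.isClosed_of_isOpen hU)
    exact (continuous_const.mul continuous_id).mul continuous_const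
  exact Subgroup.isOpen_of_isClosed_of_finiteIndex _ hcl

theorem fi_of_open (U : Subgroup Γ) (hU : IsOpen (U : Set Γ)) : U.FiniteIndex := by
  have := Subgroup.quotient_finite_of_isOpen U hU
  exact Subgroup.finiteIndex_of_finite_quotient

/-- **Stable normal subgroups exist.** -/
theorem exists_stable (H : Subgroup Γ) (hH : IsOpen (H : Set Γ)) (ρ : H →* GL (Fin n) k) :
    ∃ N : Subgroup Γ, N.Normal ∧ IsOpen (N : Set Γ) ∧ Stable H ρ N := by
  classical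
  let P : ℕ → Prop := fun d => ∃ N : Subgroup Γ, N.Normal ∧ IsOpen (N : Set Γ) ∧ N ≤ H ∧
    Module.finrank k (commutant H ρ N) = d
  have hP0 : ∃ d, P d := ⟨_, H.normalCore, inferInstance, core_open H hH (fi_of_open H hH),
    H.normalCore_le, rfl⟩
  have hb : ∀ d, P d → d ≤ n ^ 2 := by
    rintro d ⟨N, -, -, -, rfl⟩
    refine (Submodule.finrank_le _).trans ?_
    rw [Module.finrank_matrix, Module.finrank_self, Fintype.card_fin, mul_one, sq]
  obtain ⟨d₀, hd₀⟩ := hP0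
  obtain ⟨N, hN1, hN2, hN3, hN4⟩ := Nat.findGreatest_spec (P := P) (hb d₀ hd₀) hd₀
  have hmax : ∀ d, P d → d ≤ Nat.findGreatest P (n ^ 2) := fun d hd =>
    Nat.le_findGreatest (hb d hd) hd
  refine ⟨N, hN1, hN2, hN3, fun U hU hUN A hA => ?_⟩
  have hUo := core_open U hU (fi_of_open U hU)
  have h1 : commutant H ρ N ≤ commutant H ρ U.normalCore :=
    commutant_mono H ρ (U.normalCore_le.trans hUN)
  have h2 : Module.finrank k (commutant H ρ U.normalCore) ≤ Module.finrank k (commutant H ρ N) := by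
    rw [hN4]
    exact hmax _ ⟨U.normalCore, inferInstance, hUo, (U.normalCore_le.trans hUN).trans hN3, rfl⟩
  have h3 := Submodule.eq_of_le_of_finrank_le h1 h2
  have h4 : A ∈ commutant H ρ U.normalCore := fun x hx => hA x (U.normalCore_le hx)
  rw [← h3] at h4
  exact h4

theorem Stable.mono {H : Subgroup Γ} {ρ : H →* GL (Fin n) k} {N : Subgroup Γ} (h : Stable H ρ N)
    {A : GL (Fin n) k} {L : Subgroup Γ} (hL : IsOpen (L : Set Γ)) (hN : IsOpen (N : Set Γ))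
    (hA : ∀ (x : Γ) (hx : x ∈ N), x ∈ L → ρ ⟨x, h.1 hx⟩ * A = A * ρ ⟨x, h.1 hx⟩) (x : Γ)
    (hx : x ∈ N) : ρ ⟨x, h.1 hx⟩ * A = A * ρ ⟨x, h.1 hx⟩ := by
  apply Units.ext
  rw [Units.val_mul, Units.val_mul]
  refine h.2 (N ⊓ L) (by rw [Subgroup.coe_inf]; exact hN.inter hL) inf_le_left A ?_ ⟨x, h.1 hx⟩ hx
  rintro ⟨y, hy⟩ ⟨hyN, hyL⟩
  exact congrArg Units.val (hA y hyN hyL)

variable [CharZero k]

/-- conjugation invariance and compatibility of the traces -/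
structure Compat {ι : Type} (H : ι → Subgroup Γ) (ρ : ∀ i, H i →* GL (Fin n) k) : Prop where
  conj : ∀ (i : ι) (γ x : Γ) (hx : x ∈ H i) (hx' : γ * x * γ⁻¹ ∈ H i),
    (ρ i ⟨γ * x * γ⁻¹, hx'⟩ : Matrix (Fin n) (Fin n) k).trace =
      (ρ i ⟨x, hx⟩ : Matrix (Fin n) (Fin n) k).trace
  eq : ∀ (i j : ι) (x : Γ) (hi : x ∈ H i) (hj : x ∈ H j),
    (ρ i ⟨x, hi⟩ : Matrix (Fin n) (Fin n) k).trace = (ρ j ⟨x, hj⟩ : Matrix (Fin n) (Fin n) k).trace

/-- `R` extends `ρ` up to isomorphism -/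
def Extends (H : Subgroup Γ) (ρ : H →* GL (Fin n) k) (R : Γ →* GL (Fin n) k) : Prop :=
  ∃ A : GL (Fin n) k, ∀ (x : Γ) (hx : x ∈ H), R x = A * ρ ⟨x, hx⟩ * A⁻¹

omit [TopologicalSpace Γ] [IsTopologicalGroup Γ] [CompactSpace Γ] [CharZero k] in
theorem Extends.trace {H : Subgroup Γ} {ρ : H →* GL (Fin n) k} {R : Γ →* GL (Fin n) k}
    (h : Extends H ρ R) (x : Γ) (hx : x ∈ H) : (R x : Matrix (Fin n) (Fin n) k).trace =
      (ρ ⟨x, hx⟩ : Matrix (Fin n) (Fin n) k).trace := by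
  obtain ⟨A, hA⟩ := h
  rw [hA x hx, trace_conj]

/-- two semisimple representations with the same traces on `L` and on a stable normal subgroup `N` of
`H`, `L N = Γ`, are isomorphic, if the first extends `ρ` -/
theorem uniq_stable {H : Subgroup Γ} {ρ : H →* GL (Fin n) k} {N : Subgroup Γ} [N.Normal]
    (hN : IsOpen (N : Set Γ)) (hst : Stable H ρ N) {L : Subgroup Γ} (hL : IsOpen (L : Set Γ))
    (htop : L ⊔ N = ⊤) {R R' : Γ →* GL (Fin n) k} (hR : Semis R) (hR' : Semis R')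
    (hext : Extends H ρ R)
    (tL : ∀ x ∈ L, (R x : Matrix (Fin n) (Fin n) k).trace = (R' x : Matrix (Fin n) (Fin n) k).trace)
    (tN : ∀ x ∈ N, (R x : Matrix (Fin n) (Fin n) k).trace =
      (R' x : Matrix (Fin n) (Fin n) k).trace) :
    ∃ A : GL (Fin n) k, ∀ x, R' x = A * R x * A⁻¹ := by
  refine uniq L N (fi_of_open L hL) (fi_of_open N hN) htop hR hR' tL tN fun A hA x hx => ?_
  obtain ⟨B, hB⟩ := hext
  have key : ∀ (y : Γ) (hy : y ∈ N), R y * A = A * R y ↔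
      ρ ⟨y, hst.1 hy⟩ * (B⁻¹ * A * B) = (B⁻¹ * A * B) * ρ ⟨y, hst.1 hy⟩ := by
    intro y hy
    rw [hB y (hst.1 hy)]
    constructor
    · intro h
      calc ρ ⟨y, hst.1 hy⟩ * (B⁻¹ * A * B) =
          B⁻¹ * ((B * ρ ⟨y, hst.1 hy⟩ * B⁻¹) * A) * B := by group
        _ = B⁻¹ * (A * (B * ρ ⟨y, hst.1 hy⟩ * B⁻¹)) * B := by rw [h]
        _ = _ := by group
    · intro h
      calc (B * ρ ⟨y, hst.1 hy⟩ * B⁻¹) * A =
          B * (ρ ⟨y, hst.1 hy⟩ * (B⁻¹ * A * B)) * B⁻¹ := by group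
        _ = B * ((B⁻¹ * A * B) * ρ ⟨y, hst.1 hy⟩) * B⁻¹ := by rw [h]
        _ = _ := by group
  rw [key x hx]
  exact hst.mono hL hN (fun y hy hyL => (key y hy).mp (hA y hy hyL)) x hx

/-- **Two subgroups.** -/
theorem two {H₁ H₂ N : Subgroup Γ} [N.Normal] (hN : IsOpen (N : Set Γ))
    (hH₂ : IsOpen (H₂ : Set Γ)) (htop : H₂ ⊔ N = ⊤)
    {ρ₁ : H₁ →* GL (Fin n) k} {ρ₂ : H₂ →* GL (Fin n) k} (h₁ : Semis ρ₁) (h₂ : Semis ρ₂)
    (hst : Stable H₁ ρ₁ N)
    (t1 : ∀ (γ x : Γ) (hx : x ∈ H₁) (hx' : γ * x * γ⁻¹ ∈ H₁),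
      (ρ₁ ⟨γ * x * γ⁻¹, hx'⟩ : Matrix (Fin n) (Fin n) k).trace =
        (ρ₁ ⟨x, hx⟩ : Matrix (Fin n) (Fin n) k).trace)
    (t2 : ∀ (x : Γ) (h1 : x ∈ H₁) (h2 : x ∈ H₂),
      (ρ₁ ⟨x, h1⟩ : Matrix (Fin n) (Fin n) k).trace =
        (ρ₂ ⟨x, h2⟩ : Matrix (Fin n) (Fin n) k).trace) :
    ∃ R : Γ →* GL (Fin n) k, Semis R ∧ Extends H₁ ρ₁ R ∧ Extends H₂ ρ₂ R :=
  glue H₁ H₂ N hst.1 (fi_of_open N hN) (fi_of_open H₂ hH₂) htop ρ₁ ρ₂ h₁ h₂
    (fun γ x hx => t1 γ x _ _) t2 (fun A hA x hx => hst.mono hH₂ hN (fun y hy hy2 => hA y hy hy2) x hx)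

/-- **General families.** -/
theorem family {ι : Type} [Nonempty ι] {H : ι → Subgroup Γ} (hH : ∀ i, IsOpen (H i : Set Γ))
    (hgen : ∀ U : Subgroup Γ, U.Normal → IsOpen (U : Set Γ) → ∃ i, H i ⊔ U = ⊤)
    {ρ : ∀ i, H i →* GL (Fin n) k} (hs : ∀ i, Semis (ρ i)) (hc : Compat H ρ) :
    ∃ R : Γ →* GL (Fin n) k, Semis R ∧ ∀ i, Extends (H i) (ρ i) R := by
  let o : ι := Classical.arbitrary ι
  obtain ⟨N, hNn, hNo, hst⟩ := exists_stable (H o) (hH o) (ρ o)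
  obtain ⟨a, ha⟩ := hgen N hNn hNo
  have hex : ∀ b, H b ⊔ N = ⊤ → ∃ R : Γ →* GL (Fin n) k, Semis R ∧ Extends (H o) (ρ o) R ∧
      Extends (H b) (ρ b) R := fun b hb =>
    two hNo (hH b) hb (hs o) (hs b) hst (hc.conj o) (hc.eq o b)
  obtain ⟨R, hR, hRo, hRa⟩ := hex a ha
  refine ⟨R, hR, fun j => ?_⟩
  -- a third subgroup
  have hca := core_open (H a) (hH a) (fi_of_open _ (hH a))
  have hcj := core_open (H j) (hH j) (fi_of_open _ (hH j))
  let W : Subgroup Γ := N ⊓ ((H a).normalCore ⊓ (H j).normalCore)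
  have hWn : W.Normal := inferInstance
  have hWo : IsOpen (W : Set Γ) := by
    change IsOpen ((N ⊓ ((H a).normalCore ⊓ (H j).normalCore) : Subgroup Γ) : Set Γ)
    rw [Subgroup.coe_inf, Subgroup.coe_inf]
    exact hNo.inter (hca.inter hcj)
  have hWN : W ≤ N := inf_le_left
  have hWa : W ≤ H a := (inf_le_right.trans inf_le_left).trans (H a).normalCore_le
  have hWj : W ≤ H j := (inf_le_right.trans inf_le_right).trans (H j).normalCore_le
  obtain ⟨b, hb⟩ := hgen W hWn hWo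
  have hbN : H b ⊔ N = ⊤ := by
    rw [eq_top_iff, ← hb]
    exact sup_le_sup_left hWN _
  obtain ⟨R', hR', hRo', hRb'⟩ := hex b hbN
  have hmod : ∀ M : Subgroup Γ, W ≤ M → ∀ x ∈ M, ∃ y ∈ H b ⊓ M, ∃ z ∈ W, y * z = x := by
    intro M hM x hx
    have hx' : x ∈ H b ⊔ W := by rw [hb]; exact Subgroup.mem_top x
    obtain ⟨y, hy, z, hz, hyz⟩ := Subgroup.mem_sup_of_normal_right.mp hx'
    refine ⟨y, ⟨hy, ?_⟩, z, hz, hyz⟩
    have h4 : y = x * z⁻¹ := by rw [← hyz]; group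
    rw [h4]
    exact M.mul_mem hx (M.inv_mem (hM hz))
  -- `R` and `R'` are isomorphic
  have htop2 : (H b ⊓ H a) ⊔ N = ⊤ := by
    rw [eq_top_iff]
    intro x _
    have hx' : x ∈ H a ⊔ N := by rw [ha]; exact Subgroup.mem_top x
    obtain ⟨y, hy, z, hz, hyz⟩ := Subgroup.mem_sup_of_normal_right.mp hx'
    obtain ⟨y', hy', z', hz', hyz'⟩ := hmod (H a) hWa y hy
    have h4 : x = y' * (z' * z) := by rw [← hyz, ← hyz', mul_assoc]
    rw [h4]
    exact Subgroup.mul_mem_sup hy' (N.mul_mem (hWN hz') hz)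
  obtain ⟨A, hA⟩ := uniq_stable hNo hst (L := H b ⊓ H a)
    (by rw [Subgroup.coe_inf]; exact (hH b).inter (hH a)) htop2 hR hR' hRo
    (by
      intro x hx
      rw [hRa.trace x hx.2, hRb'.trace x hx.1]
      exact hc.eq a b x hx.2 hx.1)
    (by
      intro x hx
      rw [hRo.trace x (hst.1 hx), hRo'.trace x (hst.1 hx)])
  have htr : ∀ x ∈ H b, ∀ hx : x ∈ H b, (R x : Matrix (Fin n) (Fin n) k).trace =
      (ρ b ⟨x, hx⟩ : Matrix (Fin n) (Fin n) k).trace := by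
    intro x _ hx
    rw [← hRb'.trace x hx, hA x, trace_conj]
  -- the restrictions to `H j`
  have hfj : (H j).FiniteIndex := fi_of_open _ (hH j)
  have hfb : (H b).FiniteIndex := fi_of_open _ (hH b)
  have hfW : W.FiniteIndex := fi_of_open _ hWo
  obtain ⟨B, hB⟩ := uniq (Γ := H j) ((H b).subgroupOf (H j)) (W.subgroupOf (H j)) inferInstance
    inferInstance
    (by
      rw [eq_top_iff]
      rintro ⟨x, hx⟩ -
      obtain ⟨y, hy, z, hz, hyz⟩ := hmod (H j) hWj x hx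
      have h4 : (⟨x, hx⟩ : H j) = ⟨y, hy.2⟩ * ⟨z, hWj hz⟩ := Subtype.ext hyz.symm
      rw [h4]
      exact Subgroup.mul_mem_sup (Subgroup.mem_subgroupOf.mpr hy.1) (Subgroup.mem_subgroupOf.mpr hz))
    (ρ := R.comp (H j).subtype) (ρ' := ρ j)
    (semis_comp hR _ (by rw [Subgroup.range_subtype]; exact hfj)) (hs j)
    (by
      rintro ⟨x, hx⟩ hx2
      have hx2' : x ∈ H b := Subgroup.mem_subgroupOf.mp hx2
      change (R x : Matrix (Fin n) (Fin n) k).trace = _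
      rw [htr x hx2' hx2']
      exact hc.eq b j x hx2' hx)
    (by
      rintro ⟨x, hx⟩ hx2
      have hx2' : x ∈ W := Subgroup.mem_subgroupOf.mp hx2
      change (R x : Matrix (Fin n) (Fin n) k).trace = _
      rw [hRo.trace x (hst.1 (hWN hx2'))]
      exact hc.eq o j x _ hx)
    (by
      intro A hA x hx
      have hx' : (x : Γ) ∈ W := Subgroup.mem_subgroupOf.mp hx
      change R x * A = A * R x
      obtain ⟨B, hB⟩ := hRo
      have key : ∀ (y : Γ) (hy : y ∈ N), R y * A = A * R y ↔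
          ρ o ⟨y, hst.1 hy⟩ * (B⁻¹ * A * B) = (B⁻¹ * A * B) * ρ o ⟨y, hst.1 hy⟩ := by
        intro y hy
        rw [hB y (hst.1 hy)]
        constructor
        · intro h
          calc ρ o ⟨y, hst.1 hy⟩ * (B⁻¹ * A * B) =
              B⁻¹ * ((B * ρ o ⟨y, hst.1 hy⟩ * B⁻¹) * A) * B := by group
            _ = B⁻¹ * (A * (B * ρ o ⟨y, hst.1 hy⟩ * B⁻¹)) * B := by rw [h]
            _ = _ := by group
        · intro h
          calc (B * ρ o ⟨y, hst.1 hy⟩ * B⁻¹) * A =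
              B * (ρ o ⟨y, hst.1 hy⟩ * (B⁻¹ * A * B)) * B⁻¹ := by group
            _ = B * ((B⁻¹ * A * B) * ρ o ⟨y, hst.1 hy⟩) * B⁻¹ := by rw [h]
            _ = _ := by group
      rw [key x (hWN hx')]
      refine hst.mono (L := W ⊓ H b) (by rw [Subgroup.coe_inf]; exact hWo.inter (hH b)) hNo
        (fun y hy hyL => (key y hy).mp ?_) x (hWN hx')
      exact hA ⟨y, hWj hyL.1⟩ (Subgroup.mem_subgroupOf.mpr hyL.1)
        (Subgroup.mem_subgroupOf.mpr hyL.2))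
  refine ⟨B⁻¹, fun x hx => ?_⟩
  have h4 : ρ j ⟨x, hx⟩ = B * R x * B⁻¹ := hB ⟨x, hx⟩
  rw [h4]
  group

end Run7.h427.PL
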