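import Pool.Agent.Run7.h427.PL.Sem

/-!
# Gluing semisimple representations of two subgroups
-/

set_option autoImplicit false

namespace Run7.h427.PL

open Matrix Run7.h427.DS

variable {Γ : Type} [Group Γ] {k : Type} [Field k] {n : ℕ}

/-- **Uniqueness.**  Two semisimple representations of `Γ` with the same traces on `L` and on `N`,
`L N = Γ`, are isomorphic if the commutants of `N` and `L ∩ N` are the same. -/
theorem uniq [CharZero k] (L N : Subgroup Γ) [N.Normal] (hL : L.FiniteIndex) (hN : N.FiniteIndex)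
    (htop : L ⊔ N = ⊤) {ρ ρ' : Γ →* GL (Fin n) k} (h : Semis ρ) (h' : Semis ρ')
    (tL : ∀ x ∈ L, (ρ x : Matrix (Fin n) (Fin n) k).trace = (ρ' x : Matrix (Fin n) (Fin n) k).trace)
    (tN : ∀ x ∈ N, (ρ x : Matrix (Fin n) (Fin n) k).trace = (ρ' x : Matrix (Fin n) (Fin n) k).trace)
    (hc : ∀ A : GL (Fin n) k, (∀ x ∈ N, x ∈ L → ρ x * A = A * ρ x) →
      ∀ x ∈ N, ρ x * A = A * ρ x) :
    ∃ A : GL (Fin n) k, ∀ x, ρ' x = A * ρ x * A⁻¹ := by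
  obtain ⟨A, hA⟩ := exists_iso (ρ := ρ.comp L.subtype) (ρ' := ρ'.comp L.subtype)
    (semis_comp h _ (by rw [Subgroup.range_subtype]; exact hL))
    (semis_comp h' _ (by rw [Subgroup.range_subtype]; exact hL)) (fun g => tL g g.2)
  obtain ⟨C, hC⟩ := exists_iso (ρ := ρ.comp N.subtype) (ρ' := ρ'.comp N.subtype)
    (semis_comp h _ (by rw [Subgroup.range_subtype]; exact hN))
    (semis_comp h' _ (by rw [Subgroup.range_subtype]; exact hN)) (fun g => tN g g.2)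
  have hA' : ∀ x ∈ L, ρ' x = A * ρ x * A⁻¹ := fun x hx => hA ⟨x, hx⟩
  have hC' : ∀ x ∈ N, ρ' x = C * ρ x * C⁻¹ := fun x hx => hC ⟨x, hx⟩
  have h1 : ∀ x ∈ N, ρ x * (A⁻¹ * C) = (A⁻¹ * C) * ρ x := by
    apply hc
    intro x hxN hxL
    have h2 : A * ρ x * A⁻¹ = C * ρ x * C⁻¹ := by rw [← hA' x hxL, ← hC' x hxN]
    have h3 : ρ x = A⁻¹ * (C * ρ x * C⁻¹) * A := by rw [← h2]; group
    calc ρ x * (A⁻¹ * C) = (A⁻¹ * (C * ρ x * C⁻¹) * A) * (A⁻¹ * C) := by rw [← h3]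
      _ = (A⁻¹ * C) * ρ x := by group
  have h2 : ∀ x ∈ N, ρ' x = A * ρ x * A⁻¹ := by
    intro x hx
    have h3 : C * ρ x * C⁻¹ = A * ρ x * A⁻¹ := by
      have h4 := h1 x hx
      calc C * ρ x * C⁻¹ = A * ((A⁻¹ * C) * ρ x) * C⁻¹ := by group
        _ = A * (ρ x * (A⁻¹ * C)) * C⁻¹ := by rw [h4]
        _ = A * ρ x * A⁻¹ := by group
    rw [hC' x hx, h3]
  refine ⟨A, fun x => ?_⟩
  have hx : x ∈ L ⊔ N := by rw [htop]; exact Subgroup.mem_top x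
  obtain ⟨y, hy, z, hz, rfl⟩ := Subgroup.mem_sup_of_normal_right.mp hx
  rw [map_mul, map_mul, hA' y hy, h2 z hz]
  group

/-- **Gluing.** -/
theorem glue [CharZero k] (H₁ H₂ N : Subgroup Γ) [hNn : N.Normal] (hN1 : N ≤ H₁)
    (hN : N.FiniteIndex) (hH₂ : H₂.FiniteIndex) (htop : H₂ ⊔ N = ⊤)
    (ρ₁ : H₁ →* GL (Fin n) k) (ρ₂ : H₂ →* GL (Fin n) k) (h₁ : Semis ρ₁) (h₂ : Semis ρ₂)
    (t1 : ∀ (γ x : Γ) (hx : x ∈ N),
      (ρ₁ ⟨γ * x * γ⁻¹, hN1 (hNn.conj_mem x hx γ)⟩ : Matrix (Fin n) (Fin n) k).trace =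
        (ρ₁ ⟨x, hN1 hx⟩ : Matrix (Fin n) (Fin n) k).trace)
    (t2 : ∀ (x : Γ) (h1 : x ∈ H₁) (h2 : x ∈ H₂),
      (ρ₁ ⟨x, h1⟩ : Matrix (Fin n) (Fin n) k).trace =
        (ρ₂ ⟨x, h2⟩ : Matrix (Fin n) (Fin n) k).trace)
    (hc : ∀ A : GL (Fin n) k,
      (∀ (x : Γ) (hx : x ∈ N), x ∈ H₂ → ρ₁ ⟨x, hN1 hx⟩ * A = A * ρ₁ ⟨x, hN1 hx⟩) →
      ∀ (x : Γ) (hx : x ∈ N), ρ₁ ⟨x, hN1 hx⟩ * A = A * ρ₁ ⟨x, hN1 hx⟩) :
    ∃ ρ : Γ →* GL (Fin n) k, Semis ρ ∧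
      (∃ A : GL (Fin n) k, ∀ (x : Γ) (hx : x ∈ H₁), ρ x = A * ρ₁ ⟨x, hx⟩ * A⁻¹) ∧
      ∃ A : GL (Fin n) k, ∀ (x : Γ) (hx : x ∈ H₂), ρ x = A * ρ₂ ⟨x, hx⟩ * A⁻¹ := by
  classical
  have hH₁ : H₁.FiniteIndex := Subgroup.finiteIndex_of_le hN1
  -- the restriction to `N`
  let σ : N →* GL (Fin n) k := ρ₁.comp (Subgroup.inclusion hN1)
  have hσ : ∀ (x : Γ) (hx : x ∈ N), σ ⟨x, hx⟩ = ρ₁ ⟨x, hN1 hx⟩ := fun x hx => rfl
  have hrel : ∀ {L H : Subgroup Γ} (hLH : L ≤ H), L.FiniteIndex →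
      (Subgroup.inclusion hLH).range.FiniteIndex := by
    intro L H hLH hL
    rw [Subgroup.inclusion_range]
    infer_instance
  have hσs : Semis σ := semis_comp h₁ _ (hrel hN1 hN)
  -- make `ρ₂` agree with `σ` on the intersection
  have hNH : (N ⊓ H₂).FiniteIndex := inferInstance
  obtain ⟨B, hB⟩ := exists_iso
    (ρ := ρ₂.comp (Subgroup.inclusion (inf_le_right : N ⊓ H₂ ≤ H₂)))
    (ρ' := ρ₁.comp (Subgroup.inclusion ((inf_le_left : N ⊓ H₂ ≤ N).trans hN1)))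
    (semis_comp h₂ _ (hrel _ hNH)) (semis_comp h₁ _ (hrel _ hNH))
    (fun g => (t2 g (hN1 g.2.1) g.2.2).symm)
  let τ : H₂ →* GL (Fin n) k := cj B ρ₂
  have hτ : ∀ x, τ x = B * ρ₂ x * B⁻¹ := fun x => rfl
  have hag : ∀ (x : Γ) (hx : x ∈ N) (h2 : x ∈ H₂), σ ⟨x, hx⟩ = τ ⟨x, h2⟩ := fun x hx h2 =>
    hB ⟨x, hx, h2⟩
  -- the conjugation formula
  have hconj : ∀ (h x : Γ) (hh : h ∈ H₂) (hx : x ∈ N),
      σ ⟨h * x * h⁻¹, hNn.conj_mem x hx h⟩ = τ ⟨h, hh⟩ * σ ⟨x, hx⟩ * (τ ⟨h, hh⟩)⁻¹ := by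
    intro h x hh hx
    let c : N →* N := (MulAut.conjNormal h : MulAut N).toMonoidHom
    have hcv : ∀ y : N, c y = ⟨h * y * h⁻¹, hNn.conj_mem y y.2 h⟩ := by
      intro y
      apply Subtype.ext
      exact MulAut.conjNormal_apply h y
    have hcs : Semis (σ.comp c) := by
      apply semis_comp hσs
      have : c.range = ⊤ := by
        rw [MonoidHom.range_eq_top]
        exact (MulAut.conjNormal h : MulAut N).surjective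
      rw [this]
      infer_instance
    obtain ⟨C, hC⟩ := exists_iso (ρ := σ) (ρ' := σ.comp c) hσs hcs (by
      intro y
      have e : (σ.comp c) y = ρ₁ ⟨h * y * h⁻¹, hN1 (hNn.conj_mem y y.2 h)⟩ := congrArg σ (hcv y)
      rw [e]
      exact (t1 h y y.2).symm)
    have hC' : ∀ (y : Γ) (hy : y ∈ N), σ ⟨h * y * h⁻¹, hNn.conj_mem y hy h⟩ =
        C * σ ⟨y, hy⟩ * C⁻¹ := by
      intro y hy
      have e : (σ.comp c) ⟨y, hy⟩ = σ ⟨h * y * h⁻¹, hNn.conj_mem y hy h⟩ :=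
        congrArg σ (hcv ⟨y, hy⟩)
      rw [← e]
      exact hC ⟨y, hy⟩
    have h3 : ∀ (y : Γ) (hy : y ∈ N), σ ⟨y, hy⟩ * (C⁻¹ * τ ⟨h, hh⟩) =
        (C⁻¹ * τ ⟨h, hh⟩) * σ ⟨y, hy⟩ := by
      apply hc
      intro y hy hy2
      have h4 : C * σ ⟨y, hy⟩ * C⁻¹ = τ ⟨h, hh⟩ * σ ⟨y, hy⟩ * (τ ⟨h, hh⟩)⁻¹ := by
        rw [← hC' y hy, hag y hy hy2,
          hag (h * y * h⁻¹) (hNn.conj_mem y hy h) (H₂.mul_mem (H₂.mul_mem hh hy2) (H₂.inv_mem hh)),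
          ← map_inv, ← map_mul, ← map_mul]
        rfl
      have h5 : σ ⟨y, hy⟩ = C⁻¹ * (τ ⟨h, hh⟩ * σ ⟨y, hy⟩ * (τ ⟨h, hh⟩)⁻¹) * C := by
        rw [← h4]; group
      change σ ⟨y, hy⟩ * (C⁻¹ * τ ⟨h, hh⟩) = (C⁻¹ * τ ⟨h, hh⟩) * σ ⟨y, hy⟩
      rw [eq_comm, ← mul_inv_eq_iff_eq_mul]
      calc C⁻¹ * τ ⟨h, hh⟩ * σ ⟨y, hy⟩ * (C⁻¹ * τ ⟨h, hh⟩)⁻¹ =
          C⁻¹ * (τ ⟨h, hh⟩ * σ ⟨y, hy⟩ * (τ ⟨h, hh⟩)⁻¹) * C := by group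
        _ = σ ⟨y, hy⟩ := h5.symm
    rw [hC' x hx]
    have h6 := h3 x hx
    calc C * σ ⟨x, hx⟩ * C⁻¹ = C * (σ ⟨x, hx⟩ * (C⁻¹ * τ ⟨h, hh⟩)) * (τ ⟨h, hh⟩)⁻¹ := by group
      _ = C * ((C⁻¹ * τ ⟨h, hh⟩) * σ ⟨x, hx⟩) * (τ ⟨h, hh⟩)⁻¹ := by rw [h6]
      _ = τ ⟨h, hh⟩ * σ ⟨x, hx⟩ * (τ ⟨h, hh⟩)⁻¹ := by group
  -- the decomposition
  have hdec : ∀ γ : Γ, ∃ (h : Γ) (_ : h ∈ H₂), h⁻¹ * γ ∈ N := by
    intro γ
    have hx : γ ∈ H₂ ⊔ N := by rw [htop]; exact Subgroup.mem_top γ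
    obtain ⟨y, hy, z, hz, rfl⟩ := Subgroup.mem_sup_of_normal_right.mp hx
    exact ⟨y, hy, by rw [inv_mul_cancel_left]; exact hz⟩
  choose s hs hsN using hdec
  let f : Γ → GL (Fin n) k := fun γ => τ ⟨s γ, hs γ⟩ * σ ⟨(s γ)⁻¹ * γ, hsN γ⟩
  have hf : ∀ (h x : Γ) (hh : h ∈ H₂) (hx : x ∈ N), f (h * x) = τ ⟨h, hh⟩ * σ ⟨x, hx⟩ := by
    intro h x hh hx
    set t := s (h * x) with ht
    have hth : t ∈ H₂ := hs _
    have htN : t⁻¹ * (h * x) ∈ N := hsN _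
    have h2 : t⁻¹ * h ∈ H₂ := H₂.mul_mem (H₂.inv_mem hth) hh
    have h3 : t⁻¹ * h ∈ N := by
      have h4 := N.mul_mem htN (N.inv_mem hx)
      have h5 : t⁻¹ * (h * x) * x⁻¹ = t⁻¹ * h := by group
      rwa [h5] at h4
    have e1 : τ ⟨h, hh⟩ = τ ⟨t, hth⟩ * τ ⟨t⁻¹ * h, h2⟩ := by
      rw [← map_mul]
      congr 1
      apply Subtype.ext
      change h = t * (t⁻¹ * h)
      group
    have e2 : σ ⟨t⁻¹ * (h * x), htN⟩ = σ ⟨t⁻¹ * h, h3⟩ * σ ⟨x, hx⟩ := by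
      rw [← map_mul]
      congr 1
      apply Subtype.ext
      change t⁻¹ * (h * x) = (t⁻¹ * h) * x
      group
    change τ ⟨t, hth⟩ * σ ⟨t⁻¹ * (h * x), htN⟩ = _
    rw [e1, e2, hag _ h3 h2, mul_assoc]
  have hmul : ∀ a b : Γ, f (a * b) = f a * f b := by
    intro a b
    have ha : a = s a * ((s a)⁻¹ * a) := by group
    have hb : b = s b * ((s b)⁻¹ * b) := by group
    have hcj : (s b)⁻¹ * ((s a)⁻¹ * a) * s b ∈ N := by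
      have := hNn.conj_mem _ (hsN a) (s b)⁻¹
      rwa [inv_inv] at this
    have hab : a * b = (s a * s b) * (((s b)⁻¹ * ((s a)⁻¹ * a) * s b) * ((s b)⁻¹ * b)) := by group
    have e1 := hf (s a * s b) (((s b)⁻¹ * ((s a)⁻¹ * a) * s b) * ((s b)⁻¹ * b))
      (H₂.mul_mem (hs a) (hs b)) (N.mul_mem hcj (hsN b))
    rw [← hab] at e1
    have e2 : τ ⟨s a * s b, H₂.mul_mem (hs a) (hs b)⟩ = τ ⟨s a, hs a⟩ * τ ⟨s b, hs b⟩ := by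
      rw [← map_mul]
      rfl
    have e3 : σ ⟨((s b)⁻¹ * ((s a)⁻¹ * a) * s b) * ((s b)⁻¹ * b), N.mul_mem hcj (hsN b)⟩ =
        σ ⟨(s b)⁻¹ * ((s a)⁻¹ * a) * s b, hcj⟩ * σ ⟨(s b)⁻¹ * b, hsN b⟩ := by
      rw [← map_mul]
      rfl
    have e4 := hconj (s b) ((s b)⁻¹ * ((s a)⁻¹ * a) * s b) (hs b) hcj
    have e5 : (⟨s b * ((s b)⁻¹ * ((s a)⁻¹ * a) * s b) * (s b)⁻¹,
        hNn.conj_mem _ hcj (s b)⟩ : N) = ⟨(s a)⁻¹ * a, hsN a⟩ := by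
      apply Subtype.ext
      change s b * ((s b)⁻¹ * ((s a)⁻¹ * a) * s b) * (s b)⁻¹ = (s a)⁻¹ * a
      group
    rw [e5] at e4
    rw [e1, e2, e3]
    change _ = (τ ⟨s a, hs a⟩ * σ ⟨(s a)⁻¹ * a, hsN a⟩) * (τ ⟨s b, hs b⟩ * σ ⟨(s b)⁻¹ * b, hsN b⟩)
    rw [e4]
    group
  let ρ : Γ →* GL (Fin n) k := MonoidHom.mk' f hmul
  have hρf : ∀ γ, ρ γ = f γ := fun γ => rfl
  have hρN : ∀ (x : Γ) (hx : x ∈ N), ρ x = σ ⟨x, hx⟩ := by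
    intro x hx
    have h3 := hf 1 x H₂.one_mem hx
    rw [one_mul] at h3
    rw [hρf, h3]
    have h4 : τ ⟨1, H₂.one_mem⟩ = 1 := map_one τ
    rw [h4, one_mul]
  have hρH : ∀ (x : Γ) (hx : x ∈ H₂), ρ x = τ ⟨x, hx⟩ := by
    intro x hx
    have h3 := hf x 1 hx N.one_mem
    rw [mul_one] at h3
    rw [hρf, h3]
    have h4 : σ ⟨1, N.one_mem⟩ = 1 := map_one σ
    rw [h4, mul_one]
  have hρs : Semis ρ := by
    apply semis_of_comp N.subtype (by rw [Subgroup.range_subtype]; exact hN)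
    have h3 : ρ.comp N.subtype = σ := by
      ext1 x
      exact hρN x x.2
    rw [h3]
    exact hσs
  refine ⟨ρ, hρs, ?_, B, fun x hx => by rw [hρH x hx, hτ]⟩
  -- the restriction to `H₁`
  have h3 : ∀ x ∈ H₁, ∃ y ∈ H₁ ⊓ H₂, ∃ z ∈ N, y * z = x := by
    intro x hx
    have hx' : x ∈ H₂ ⊔ N := by rw [htop]; exact Subgroup.mem_top x
    obtain ⟨y, hy, z, hz, hyz⟩ := Subgroup.mem_sup_of_normal_right.mp hx'
    refine ⟨y, ⟨?_, hy⟩, z, hz, hyz⟩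
    have h4 : y = x * z⁻¹ := by rw [← hyz]; group
    rw [h4]
    exact H₁.mul_mem hx (H₁.inv_mem (hN1 hz))
  obtain ⟨A, hA⟩ := uniq (Γ := H₁) (H₂.subgroupOf H₁) (N.subgroupOf H₁) inferInstance inferInstance
    (by
      rw [eq_top_iff]
      rintro ⟨x, hx⟩ -
      obtain ⟨y, hy, z, hz, hyz⟩ := h3 x hx
      have h4 : (⟨x, hx⟩ : H₁) = ⟨y, hy.1⟩ * ⟨z, hN1 hz⟩ := Subtype.ext hyz.symm
      rw [h4]
      exact Subgroup.mul_mem_sup (Subgroup.mem_subgroupOf.mpr hy.2) (Subgroup.mem_subgroupOf.mpr hz))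
    (ρ := ρ₁) (ρ' := ρ.comp H₁.subtype) h₁
    (semis_comp hρs _ (by rw [Subgroup.range_subtype]; exact hH₁))
    (by
      rintro ⟨x, hx⟩ hx2
      have hx2' : x ∈ H₂ := Subgroup.mem_subgroupOf.mp hx2
      change _ = (ρ x : Matrix (Fin n) (Fin n) k).trace
      rw [hρH x hx2', hτ, trace_conj]
      exact t2 x hx hx2')
    (by
      rintro ⟨x, hx⟩ hx2
      have hx2' : x ∈ N := Subgroup.mem_subgroupOf.mp hx2
      change _ = (ρ x : Matrix (Fin n) (Fin n) k).trace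
      rw [hρN x hx2']
      rfl)
    (by
      intro A hA x hx
      exact hc A (fun y hy hy2 => hA ⟨y, hN1 hy⟩ (Subgroup.mem_subgroupOf.mpr hy)
        (Subgroup.mem_subgroupOf.mpr hy2)) x (Subgroup.mem_subgroupOf.mp hx))
  exact ⟨A, fun x hx => hA ⟨x, hx⟩⟩

end Run7.h427.PL
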