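import Pool.Agent.Run7.h427.PL.Norm
import Pool.Agent.Run7.h427.DS.Core

/-!
# Galois representations of extension fields with given characteristic polynomials of Frobenius
-/

set_option autoImplicit false

namespace Run7.h427.PL

open Matrix Run7.h427.DS Topology Filter NumberField IsDedekindDomain Polynomial
open Pool.Agent.W401.Cheb Pool.Agent.W528.Ord

variable {F : Type} [Field F] [NumberField F] {k : Type} [Field k] {n : ℕ}

section frob

theorem smul_alg (τ : GK F) (a : 𝓞 F) :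
    τ • algebraMap (𝓞 F) (𝓞 (AlgebraicClosure F)) a = algebraMap (𝓞 F) (𝓞 (AlgebraicClosure F)) a := by
  apply RingOfIntegers.ext
  exact τ.commutes (a : F)

/-- `σ` is a Frobenius element at the maximal ideal `Q` -/
def FrobAt (v : HeightOneSpectrum (𝓞 F)) (Q : Ideal (𝓞 (AlgebraicClosure F))) (σ : GK F) : Prop :=
  ∀ x : 𝓞 (AlgebraicClosure F), σ • x - x ^ Ideal.absNorm v.asIdeal ∈ Q

/-- `σ` is in the inertia group of the maximal ideal `Q` -/
def InertAt (Q : Ideal (𝓞 (AlgebraicClosure F))) (σ : GK F) : Prop :=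
  ∀ x : 𝓞 (AlgebraicClosure F), σ • x - x ∈ Q

theorem isFrob_conj (v : HeightOneSpectrum (𝓞 F)) (σ τ : GK F) (h : IsFrob v σ) :
    IsFrob v (τ * σ * τ⁻¹) := by
  obtain ⟨Q, hQ, hQv, hσ⟩ := h
  let φ : 𝓞 (AlgebraicClosure F) →+* 𝓞 (AlgebraicClosure F) :=
    MulSemiringAction.toRingHom (GK F) (𝓞 (AlgebraicClosure F)) τ⁻¹
  have hφ : ∀ x, φ x = τ⁻¹ • x := fun x => rfl
  have hs : Function.Surjective φ := fun x => ⟨τ • x, by rw [hφ, inv_smul_smul]⟩
  refine ⟨Q.comap φ, Ideal.comap_isMaximal_of_surjective φ hs, ?_, fun x => ?_⟩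
  · rw [Ideal.comap_comap, ← hQv]
    congr 1
    ext1 a
    exact smul_alg τ⁻¹ a
  · rw [Ideal.mem_comap, map_sub, map_pow, hφ, hφ, ← mul_smul]
    have h1 : τ⁻¹ * (τ * σ * τ⁻¹) = σ * τ⁻¹ := by group
    rw [h1, mul_smul]
    exact hσ _

/-- there are Frobenius elements in every admissible set, at primes outside a set of density zero -/
theorem exists_frob_dens (U : Subgroup (GK F)) [U.Normal] (hU : IsOpen (U : Set (GK F)))
    (C : Set (GK F)) (hC : ∀ σ ∈ C, ∀ τ : GK F, τ * σ * τ⁻¹ ∈ C) (hCU : ∀ σ ∈ C, ∀ u ∈ U, σ * u ∈ C)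
    (hne : C.Nonempty) (B : HeightOneSpectrum (𝓞 F) → Prop) (hB : Tendsto (dens B) atTop (𝓝 0)) :
    ∃ v, ¬ B v ∧ ∃ σ ∈ C, IsFrob v σ := by
  by_contra hcon
  push Not at hcon
  have h1 := chebK F U hU C hC hCU
  have h3 := le_of_tendsto_of_tendsto' h1 hB fun N => dens_mono (fun v hv => by
    by_contra hvB
    obtain ⟨σ, hσ, hσv⟩ := hv
    exact hcon v hvB σ hσ hσv) N
  have hfin : Finite (GK F ⧸ U) := Subgroup.quotient_finite_of_isOpen U hU
  have h4 : 0 < ((QuotientGroup.mk : GK F → GK F ⧸ U) '' C).ncard := by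
    rw [Set.ncard_pos (Set.toFinite _)]
    exact hne.image _
  have h5 : (0 : ℝ) < (Nat.card (GK F ⧸ U) : ℝ) := by exact_mod_cast Nat.card_pos
  have h6 : (0 : ℝ) < (((QuotientGroup.mk : GK F → GK F ⧸ U) '' C).ncard : ℝ) /
      (Nat.card (GK F ⧸ U) : ℝ) := div_pos (by exact_mod_cast h4) h5
  linarith

/-- **Density.**  A continuous function on an open subgroup which vanishes at the Frobenius elements
at all primes outside a set of density zero is zero. -/
theorem vanish [TopologicalSpace k] [T2Space k] (H : Subgroup (GK F)) (hH : IsOpen (H : Set (GK F)))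
    (φ : H → k) (hφ : Continuous φ) (B : HeightOneSpectrum (𝓞 F) → Prop)
    (hB : Tendsto (dens B) atTop (𝓝 0))
    (h : ∀ v, ¬ B v → ∀ (σ : GK F) (hσ : σ ∈ H), IsFrob v σ → φ ⟨σ, hσ⟩ = 0) (x : H) : φ x = 0 := by
  by_contra hne
  have ho : IsOpen (φ ⁻¹' ({0}ᶜ : Set k)) := isOpen_compl_singleton.preimage hφ
  have ho' : IsOpen ((Subtype.val : H → GK F) '' (φ ⁻¹' ({0}ᶜ : Set k))) :=
    hH.isOpenMap_subtype_val _ ho
  have hn : IsOpen ((fun y : GK F => (x : GK F) * y) ⁻¹'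
      ((Subtype.val : H → GK F) '' (φ ⁻¹' ({0}ᶜ : Set k)))) :=
    ho'.preimage (continuous_const.mul continuous_id)
  obtain ⟨U, hU⟩ := ProfiniteGrp.exist_openNormalSubgroup_sub_open_nhds_of_one hn (by
    change (x : GK F) * 1 ∈ (Subtype.val : H → GK F) '' (φ ⁻¹' ({0}ᶜ : Set k))
    rw [mul_one]
    exact ⟨x, hne, rfl⟩)
  have hUn : (U.toSubgroup).Normal := U.isNormal'
  let C : Set (GK F) := {g | ∃ τ : GK F, ∃ u ∈ U.toSubgroup, g = τ * (x * u) * τ⁻¹}
  obtain ⟨v, hv, σ, ⟨τ, u, hu, rfl⟩, hσ⟩ := exists_frob_dens U.toSubgroup U.isOpen' C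
    (by
      rintro _ ⟨τ, u, hu, rfl⟩ τ'
      exact ⟨τ' * τ, u, hu, by group⟩)
    (by
      rintro _ ⟨τ, u, hu, rfl⟩ u' hu'
      refine ⟨τ, u * (τ⁻¹ * u' * τ), U.toSubgroup.mul_mem hu ?_, by group⟩
      have := hUn.conj_mem u' hu' τ⁻¹
      rwa [inv_inv] at this)
    ⟨x, 1, 1, U.toSubgroup.one_mem, by group⟩ B hB
  have h1 := isFrob_conj v _ τ⁻¹ hσ
  have h2 : τ⁻¹ * (τ * (x * u) * τ⁻¹) * τ⁻¹⁻¹ = x * u := by group
  rw [h2] at h1
  obtain ⟨y, hy, hyx⟩ := hU hu
  have hyx' : (y : GK F) = x * u := hyx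
  have h3 : (x : GK F) * u ∈ H := by rw [← hyx']; exact y.2
  apply hy
  have h4 := h v hv ((x : GK F) * u) h3 h1
  rw [← h4]
  congr 1
  exact Subtype.ext hyx'

end frob

/-- some Frobenius element at `v` in `H` does not have the characteristic polynomial `T v` -/
def Mismatch (T : HeightOneSpectrum (𝓞 F) → k[X]) (H : Subgroup (GK F)) (ρ : H →* GL (Fin n) k)
    (v : HeightOneSpectrum (𝓞 F)) : Prop :=
  ∃ (σ : GK F) (hσ : σ ∈ H), IsFrob v σ ∧
    (ρ ⟨σ, hσ⟩ : Matrix (Fin n) (Fin n) k).charpoly ≠ T v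

/-- **Matching.**  For all primes `v` of `F` outside a set of density zero, all Frobenius elements at
`v` in `H` have the characteristic polynomial `T v`. -/
def Matching (T : HeightOneSpectrum (𝓞 F) → k[X]) (H : Subgroup (GK F)) (ρ : H →* GL (Fin n) k) :
    Prop := Tendsto (dens (Mismatch T H ρ)) atTop (𝓝 0)

theorem trace_of_charpoly {A B : Matrix (Fin n) (Fin n) k} (h : A.charpoly = B.charpoly) :
    A.trace = B.trace := by
  rcases Nat.eq_zero_or_pos n with hn | hn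
  · subst hn
    rw [Matrix.trace_eq_zero_of_isEmpty, Matrix.trace_eq_zero_of_isEmpty]
  · have : Nonempty (Fin n) := ⟨⟨0, hn⟩⟩
    rw [Matrix.trace_eq_neg_charpoly_coeff, Matrix.trace_eq_neg_charpoly_coeff, h]

theorem dens_zero_or {P Q : HeightOneSpectrum (𝓞 F) → Prop} (hP : Tendsto (dens P) atTop (𝓝 0))
    (hQ : Tendsto (dens Q) atTop (𝓝 0)) : Tendsto (dens fun v => P v ∨ Q v) atTop (𝓝 0) := by
  have h := hP.add hQ
  rw [add_zero] at h
  exact squeeze_zero (fun N => dens_nonneg _ N) (fun N => dens_or P Q N) h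

variable [TopologicalSpace k] [IsTopologicalRing k] [T2Space k]

/-- conjugation invariance of the traces -/
theorem trace_conj_inv {T : HeightOneSpectrum (𝓞 F) → k[X]} {H : Subgroup (GK F)}
    (hH : IsOpen (H : Set (GK F))) {ρ : H →* GL (Fin n) k}
    (hc : Continuous fun x => (ρ x : Matrix (Fin n) (Fin n) k)) (hm : Matching T H ρ)
    (γ x : GK F) (hx : x ∈ H) (hx' : γ * x * γ⁻¹ ∈ H) :
    (ρ ⟨γ * x * γ⁻¹, hx'⟩ : Matrix (Fin n) (Fin n) k).trace =
      (ρ ⟨x, hx⟩ : Matrix (Fin n) (Fin n) k).trace := by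
  let c : GK F →* GK F := (MulAut.conj γ).toMonoidHom
  have hcv : ∀ y, c y = γ * y * γ⁻¹ := fun y => rfl
  have hcc : Continuous c := (continuous_const.mul continuous_id).mul continuous_const
  let H' : Subgroup (GK F) := H ⊓ H.comap c
  have hH' : IsOpen (H' : Set (GK F)) := hH.inter (hH.preimage hcc)
  let f₁ : H' → H := fun y => ⟨γ * y * γ⁻¹, y.2.2⟩
  let f₂ : H' → H := fun y => ⟨y, y.2.1⟩
  have hf₁ : Continuous f₁ := Continuous.subtype_mk (hcc.comp continuous_subtype_val) _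
  have hf₂ : Continuous f₂ := Continuous.subtype_mk continuous_subtype_val _
  have h := vanish H' hH' (fun y => (ρ (f₁ y) : Matrix (Fin n) (Fin n) k).trace -
    (ρ (f₂ y) : Matrix (Fin n) (Fin n) k).trace)
    ((hc.comp hf₁).matrix_trace.sub (hc.comp hf₂).matrix_trace) _ hm (by
      intro v hv σ hσ hfr
      rw [sub_eq_zero]
      apply trace_of_charpoly
      rw [Mismatch] at hv
      push Not at hv
      have e1 := hv (γ * σ * γ⁻¹) hσ.2 (isFrob_conj v σ γ hfr)
      have e2 := hv σ hσ.1 hfr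
      exact e1.trans e2.symm) ⟨x, hx, hx'⟩
  exact sub_eq_zero.mp h

/-- compatibility of the traces -/
theorem trace_compat {T : HeightOneSpectrum (𝓞 F) → k[X]} {H₁ H₂ : Subgroup (GK F)}
    (hH₁ : IsOpen (H₁ : Set (GK F))) (hH₂ : IsOpen (H₂ : Set (GK F)))
    {ρ₁ : H₁ →* GL (Fin n) k} {ρ₂ : H₂ →* GL (Fin n) k}
    (hc₁ : Continuous fun x => (ρ₁ x : Matrix (Fin n) (Fin n) k))
    (hc₂ : Continuous fun x => (ρ₂ x : Matrix (Fin n) (Fin n) k))
    (hm₁ : Matching T H₁ ρ₁) (hm₂ : Matching T H₂ ρ₂) (x : GK F) (h1 : x ∈ H₁) (h2 : x ∈ H₂) :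
    (ρ₁ ⟨x, h1⟩ : Matrix (Fin n) (Fin n) k).trace =
      (ρ₂ ⟨x, h2⟩ : Matrix (Fin n) (Fin n) k).trace := by
  let H' : Subgroup (GK F) := H₁ ⊓ H₂
  have hH' : IsOpen (H' : Set (GK F)) := hH₁.inter hH₂
  let f₁ : H' → H₁ := fun y => ⟨y, y.2.1⟩
  let f₂ : H' → H₂ := fun y => ⟨y, y.2.2⟩
  have hf₁ : Continuous f₁ := Continuous.subtype_mk continuous_subtype_val _
  have hf₂ : Continuous f₂ := Continuous.subtype_mk continuous_subtype_val _
  have h := vanish H' hH' (fun y => (ρ₁ (f₁ y) : Matrix (Fin n) (Fin n) k).trace -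
    (ρ₂ (f₂ y) : Matrix (Fin n) (Fin n) k).trace)
    ((hc₁.comp hf₁).matrix_trace.sub (hc₂.comp hf₂).matrix_trace) _ (dens_zero_or hm₁ hm₂) (by
      intro v hv σ hσ hfr
      rw [sub_eq_zero]
      apply trace_of_charpoly
      rw [not_or, Mismatch, Mismatch] at hv
      push Not at hv
      exact (hv.1 σ hσ.1 hfr).trans (hv.2 σ hσ.2 hfr).symm) ⟨x, h1, h2⟩
  exact sub_eq_zero.mp h

omit [T2Space k] in
/-- an extension of a continuous representation of an open subgroup is continuous -/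
theorem Extends.continuous {H : Subgroup (GK F)} (hH : IsOpen (H : Set (GK F)))
    {ρ : H →* GL (Fin n) k} {R : GK F →* GL (Fin n) k}
    (hc : Continuous fun x => (ρ x : Matrix (Fin n) (Fin n) k)) (h : Extends H ρ R) :
    Continuous fun x => (R x : Matrix (Fin n) (Fin n) k) := by
  obtain ⟨A, hA⟩ := h
  rw [continuous_iff_continuousAt]
  intro g
  have ho : IsOpenEmbedding (fun y : H => g * (y : GK F)) :=
    (Homeomorph.mulLeft g).isOpenEmbedding.comp hH.isOpenEmbedding_subtypeVal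
  have h1 : Continuous fun y : H => (R (g * (y : GK F)) : Matrix (Fin n) (Fin n) k) := by
    have h2 : (fun y : H => (R (g * (y : GK F)) : Matrix (Fin n) (Fin n) k)) = fun y : H =>
        (R g : Matrix (Fin n) (Fin n) k) * ((A : Matrix (Fin n) (Fin n) k) *
          (ρ y : Matrix (Fin n) (Fin n) k) * ((A⁻¹ : GL (Fin n) k) :
            Matrix (Fin n) (Fin n) k)) := by
      funext y
      rw [map_mul, hA y y.2, Units.val_mul, Units.val_mul, Units.val_mul]
    rw [h2]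
    exact continuous_const.matrix_mul ((continuous_const.matrix_mul hc).matrix_mul continuous_const)
  have h3 := ho.continuousAt_iff (f := fun y : H => g * (y : GK F))
    (g := fun x => (R x : Matrix (Fin n) (Fin n) k)) (x := (1 : H))
  have h4 : g * ((1 : H) : GK F) = g := by rw [Subgroup.coe_one, mul_one]
  rw [h4] at h3
  exact h3.mp h1.continuousAt

omit [TopologicalSpace k] [IsTopologicalRing k] [T2Space k] in
/-- **Local behaviour.**  If the inertia group of one maximal ideal `Q` above `v` and a Frobenius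
element at `Q` are in `H`, and the representation `ρ` of `H` is trivial on the inertia group and has
the characteristic polynomial `P` at the Frobenius element, then the same holds for the extension of
`ρ` at all places above `v`. -/
theorem Extends.local {H : Subgroup (GK F)} {ρ : H →* GL (Fin n) k} {R : GK F →* GL (Fin n) k}
    (h : Extends H ρ R) (v : HeightOneSpectrum (𝓞 F)) (Q : Ideal (𝓞 (AlgebraicClosure F)))
    [hQ : Q.IsMaximal] (hQv : Q.comap (algebraMap (𝓞 F) (𝓞 (AlgebraicClosure F))) = v.asIdeal)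
    (hin : ∀ τ, InertAt Q τ → ∃ hτ : τ ∈ H, ρ ⟨τ, hτ⟩ = 1) (P : k[X])
    (hfr : ∃ (σ : GK F) (hσ : σ ∈ H), FrobAt v Q σ ∧
      (ρ ⟨σ, hσ⟩ : Matrix (Fin n) (Fin n) k).charpoly = P) :
    (∀ τ, IsInert v τ → R τ = 1) ∧
      ∀ σ, IsFrob v σ → (R σ : Matrix (Fin n) (Fin n) k).charpoly = P := by
  obtain ⟨A, hA⟩ := h
  have hR1 : ∀ τ, InertAt Q τ → R τ = 1 := by
    intro τ hτ
    obtain ⟨h1, h2⟩ := hin τ hτ
    rw [hA τ h1, h2, mul_one, mul_inv_cancel]
  have hmove : ∀ (Q' : Ideal (𝓞 (AlgebraicClosure F))), Q'.IsMaximal →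
      Q'.comap (algebraMap (𝓞 F) (𝓞 (AlgebraicClosure F))) = v.asIdeal →
      ∃ g : GK F, ∀ x : 𝓞 (AlgebraicClosure F), x ∈ Q' ↔ g • x ∈ Q := by
    intro Q' hQ' hQv'
    exact Pool.Agent.W352.ChAbs.exists_smul Q' Q (hQv'.trans hQv.symm)
  constructor
  · rintro τ ⟨Q', hQ', hQv', hτ⟩
    obtain ⟨g, hg⟩ := hmove Q' hQ' hQv'
    have h1 : InertAt Q (g * τ * g⁻¹) := by
      intro x
      have h2 := (hg _).mp (hτ (g⁻¹ • x))
      rw [smul_sub, smul_inv_smul] at h2
      rw [mul_smul, mul_smul]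
      exact h2
    have h2 := hR1 _ h1
    rw [map_mul, map_mul, map_inv, mul_inv_eq_one] at h2
    exact mul_left_cancel (h2.trans (mul_one _).symm)
  · rintro σ' ⟨Q', hQ', hQv', hσ'⟩
    obtain ⟨g, hg⟩ := hmove Q' hQ' hQv'
    obtain ⟨σ, hσH, hσ, hσP⟩ := hfr
    have h1 : FrobAt v Q (g * σ' * g⁻¹) := by
      intro x
      have h2 := (hg _).mp (hσ' (g⁻¹ • x))
      rw [smul_sub, smul_pow', smul_inv_smul] at h2
      rw [mul_smul, mul_smul]
      exact h2
    have h2 : InertAt Q (σ⁻¹ * (g * σ' * g⁻¹)) := by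
      intro x
      have hz : (g * σ' * g⁻¹) • x - σ • x ∈ Q := by
        have := Q.sub_mem (h1 x) (hσ x)
        rwa [sub_sub_sub_cancel_right] at this
      have h3 : σ⁻¹ • ((g * σ' * g⁻¹) • x - σ • x) ∈ Q := by
        have h4 := hσ (σ⁻¹ • ((g * σ' * g⁻¹) • x - σ • x))
        rw [smul_inv_smul] at h4
        have h5 := Q.sub_mem hz h4
        rw [sub_sub_cancel] at h5
        exact hQ.isPrime.mem_of_pow_mem _ h5
      rw [smul_sub, inv_smul_smul, ← mul_smul] at h3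
      exact h3
    have h3 := hR1 _ h2
    rw [map_mul, map_inv, inv_mul_eq_one] at h3
    have h4 : R (g * σ' * g⁻¹) = R g * R σ' * (R g)⁻¹ := by
      rw [map_mul, map_mul, map_inv]
    have h5 : (R σ' : Matrix (Fin n) (Fin n) k).charpoly =
        (R σ : Matrix (Fin n) (Fin n) k).charpoly := by
      rw [h3, h4, charpoly_conj]
    rw [h5, hA σ hσH, charpoly_conj, hσP]

end Run7.h427.PL
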