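import Pool.Agent.Run7.h427.DS.Alg
import Pool.Agent.N171.TG.Cli
import Pool.Agent.R390.SF.BN2

/-!
# Semisimple matrix representations and subgroups of finite index
-/

set_option autoImplicit false

namespace Run7.h427.PL

open Matrix Run7.h427.DS Pool.Agent.N171.TG

variable {G G' : Type} [Group G] [Group G'] {k : Type} [Field k] {n : ℕ}

/-- the representation on column vectors -/
noncomputable def lin (ρ : G →* GL (Fin n) k) : G →* Module.End k (Fin n → k) where
  toFun g := Matrix.toLin' (ρ g : Matrix (Fin n) (Fin n) k)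
  map_one' := by
    rw [map_one, Units.val_one, Matrix.toLin'_one]
    rfl
  map_mul' a b := by
    rw [map_mul, Units.val_mul, Matrix.toLin'_mul]
    rfl

theorem lin_apply (ρ : G →* GL (Fin n) k) (g : G) (v : Fin n → k) :
    lin ρ g v = (ρ g : Matrix (Fin n) (Fin n) k) *ᵥ v := Matrix.toLin'_apply _ _

theorem semis_comp_iff (ρ : G →* GL (Fin n) k) (f : G' →* G) :
    Semis (ρ.comp f) ↔ SSu (lin ρ) f.range := by
  have key : ∀ W : Submodule k (Fin n → k),
      (∀ g, ∀ w ∈ W, ((ρ.comp f) g : Matrix (Fin n) (Fin n) k) *ᵥ w ∈ W) ↔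
        Inv (lin ρ) f.range W := by
    intro W
    constructor
    · rintro h _ ⟨g, rfl⟩ w hw
      rw [lin_apply]
      exact h g w hw
    · intro h g w hw
      have := h (f g) ⟨g, rfl⟩ w hw
      rw [lin_apply] at this
      exact this
  constructor
  · intro h W hW
    obtain ⟨W', h1, h2⟩ := h W ((key W).mpr hW)
    exact ⟨W', (key W').mp h1, h2⟩
  · intro h W hW
    obtain ⟨W', h1, h2⟩ := h W ((key W).mp hW)
    exact ⟨W', (key W').mpr h1, h2⟩

theorem semis_iff (ρ : G →* GL (Fin n) k) : Semis ρ ↔ SSu (lin ρ) ⊤ := by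
  have h := semis_comp_iff ρ (MonoidHom.id G)
  rw [MonoidHom.comp_id, MonoidHom.range_eq_top.mpr Function.surjective_id] at h
  exact h

/-- restriction to a subgroup of finite index -/
theorem semis_comp [CharZero k] {ρ : G →* GL (Fin n) k} (h : Semis ρ) (f : G' →* G)
    (hf : f.range.FiniteIndex) : Semis (ρ.comp f) :=
  (semis_comp_iff ρ f).mpr (((semis_iff ρ).mp h).finite_index _ hf)

/-- semisimplicity can be checked on a subgroup of finite index -/
theorem semis_of_comp [CharZero k] {ρ : G →* GL (Fin n) k} (f : G' →* G)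
    (hf : f.range.FiniteIndex) (h : Semis (ρ.comp f)) : Semis ρ :=
  (semis_iff ρ).mpr (((semis_comp_iff ρ f).mp h).above hf le_top)

/-- **Semisimple representations with the same traces are isomorphic.** -/
theorem exists_iso [CharZero k] {ρ ρ' : G →* GL (Fin n) k} (h : Semis ρ) (h' : Semis ρ')
    (ht : ∀ g, (ρ g : Matrix (Fin n) (Fin n) k).trace = (ρ' g : Matrix (Fin n) (Fin n) k).trace) :
    ∃ A : GL (Fin n) k, ∀ g, ρ' g = A * ρ g * A⁻¹ := by
  obtain ⟨A, hA⟩ := Pool.Agent.R390.SF.bn_ss (ρ := ρ) (ρ' := ρ') h h' ht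
  refine ⟨A, fun g => ?_⟩
  rw [eq_mul_inv_iff_mul_eq]
  apply Units.ext
  rw [Units.val_mul, Units.val_mul]
  exact hA g

/-- conjugation of a representation -/
def cj (A : GL (Fin n) k) (ρ : G →* GL (Fin n) k) : G →* GL (Fin n) k :=
  (MulAut.conj A).toMonoidHom.comp ρ

theorem cj_apply (A : GL (Fin n) k) (ρ : G →* GL (Fin n) k) (g : G) :
    cj A ρ g = A * ρ g * A⁻¹ := rfl

theorem trace_conj (A x : GL (Fin n) k) :
    ((A * x * A⁻¹ : GL (Fin n) k) : Matrix (Fin n) (Fin n) k).trace =
      (x : Matrix (Fin n) (Fin n) k).trace := by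
  rw [Units.val_mul, Matrix.trace_mul_comm, ← Units.val_mul, ← mul_assoc, inv_mul_cancel, one_mul]

theorem charpoly_conj (A x : GL (Fin n) k) :
    ((A * x * A⁻¹ : GL (Fin n) k) : Matrix (Fin n) (Fin n) k).charpoly =
      (x : Matrix (Fin n) (Fin n) k).charpoly := by
  rw [Units.val_mul, Matrix.charpoly_mul_comm, ← Units.val_mul, ← mul_assoc, inv_mul_cancel,
    one_mul]

end Run7.h427.PL
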