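import Pool.Agent.Run7.h427.PL.Fam

/-!
# Subgroups on which a representation is close to the identity are stable
-/

set_option autoImplicit false
set_option linter.unusedSectionVars false

namespace Run7.h427.PL

open Matrix Run7.h427.DS

section norm

variable {k : Type} [NormedField k] [IsUltrametricDist k] {n : ℕ}

/-- all entries of `M` have norm at most `r` -/
def Le (M : Matrix (Fin n) (Fin n) k) (r : ℝ) : Prop := ∀ i j, ‖M i j‖ ≤ r

theorem Le.mul {A B : Matrix (Fin n) (Fin n) k} {a b : ℝ} (ha : 0 ≤ a) (hb : 0 ≤ b) (hA : Le A a)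
    (hB : Le B b) : Le (A * B) (a * b) := by
  intro i j
  rw [Matrix.mul_apply]
  refine IsUltrametricDist.norm_sum_le_of_forall_le_of_nonneg (mul_nonneg ha hb) fun l _ => ?_
  rw [norm_mul]
  exact mul_le_mul (hA i l) (hB l j) (norm_nonneg _) ha

theorem Le.add {A B : Matrix (Fin n) (Fin n) k} {a : ℝ} (hA : Le A a) (hB : Le B a) :
    Le (A + B) a := by
  intro i j
  rw [Matrix.add_apply]
  exact (IsUltrametricDist.norm_add_le_max _ _).trans (max_le (hA i j) (hB i j))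

theorem Le.mono {A : Matrix (Fin n) (Fin n) k} {a b : ℝ} (hA : Le A a) (h : a ≤ b) : Le A b :=
  fun i j => (hA i j).trans h

theorem Le.smul {A : Matrix (Fin n) (Fin n) k} {a : ℝ} (hA : Le A a) (c : k) :
    Le (c • A) (‖c‖ * a) := by
  intro i j
  rw [Matrix.smul_apply, smul_eq_mul, norm_mul]
  exact mul_le_mul_of_nonneg_left (hA i j) (norm_nonneg c)

theorem Le.sum {ι : Type} {s : Finset ι} {A : ι → Matrix (Fin n) (Fin n) k} {a : ℝ} (ha : 0 ≤ a)
    (hA : ∀ i ∈ s, Le (A i) a) : Le (∑ i ∈ s, A i) a := by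
  intro i j
  rw [Matrix.sum_apply]
  exact IsUltrametricDist.norm_sum_le_of_forall_le_of_nonneg ha fun l hl => hA l hl i j

/-- the largest entry -/
theorem exists_max (Y : Matrix (Fin n) (Fin n) k) (hY : Y ≠ 0) :
    ∃ c : ℝ, 0 < c ∧ Le Y c ∧ ∃ i j, ‖Y i j‖ = c := by
  have hne : ∃ p : Fin n × Fin n, Y p.1 p.2 ≠ 0 := by
    by_contra hcon
    push Not at hcon
    exact hY (Matrix.ext fun i j => hcon (i, j))
  obtain ⟨p₀, hp₀⟩ := hne
  have : Nonempty (Fin n × Fin n) := ⟨p₀⟩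
  obtain ⟨p, hp⟩ := Finite.exists_max fun p : Fin n × Fin n => ‖Y p.1 p.2‖
  exact ⟨‖Y p.1 p.2‖, (norm_pos_iff.mpr hp₀).trans_le (hp p₀), fun i j => hp (i, j), p.1, p.2, rfl⟩

/-- `D` divides norms by `1 / r` -/
def Contr (r : ℝ) (D : Module.End k (Matrix (Fin n) (Fin n) k)) : Prop :=
  ∀ X (c : ℝ), 0 ≤ c → Le X c → Le (D X) (r * c)

theorem Contr.pow {r : ℝ} (hr : 0 ≤ r) {D : Module.End k (Matrix (Fin n) (Fin n) k)}
    (h : Contr r D) (m : ℕ) : Contr (r ^ m) (D ^ m) := by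
  induction m with
  | zero =>
    intro X c _ hX
    rw [pow_zero, pow_zero, one_mul, Module.End.one_apply]
    exact hX
  | succ m ih =>
    intro X c hc hX
    rw [pow_succ', pow_succ', Module.End.mul_apply, mul_assoc]
    exact h _ _ (mul_nonneg (pow_nonneg hr m) hc) (ih X c hc hX)

/-- the binomial formula -/
theorem binom (D : Module.End k (Matrix (Fin n) (Fin n) k)) (m : ℕ) (X : Matrix (Fin n) (Fin n) k) :
    ((1 + D) ^ m) X = X + ∑ j ∈ Finset.range m, ((m.choose (j + 1) : ℕ) : k) • (D ^ j) (D X) := by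
  have h1 : (1 + D) ^ m = ∑ j ∈ Finset.range (m + 1), ((m.choose j : ℕ) : k) • D ^ j := by
    rw [add_comm, (Commute.one_right D).add_pow]
    refine Finset.sum_congr rfl fun j _ => ?_
    rw [one_pow, mul_one, ← nsmul_eq_mul', Nat.cast_smul_eq_nsmul]
  rw [h1, Finset.sum_range_succ', LinearMap.add_apply, add_comm, LinearMap.sum_apply]
  congr 1
  simp

theorem Contr.one_add_pow {r : ℝ} (hr : 0 ≤ r) (hr1 : r ≤ 1)
    {D : Module.End k (Matrix (Fin n) (Fin n) k)} (h : Contr r D) (m : ℕ) :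
    Contr r ((1 + D) ^ m - 1) := by
  intro X c hc hX
  rw [LinearMap.sub_apply, binom, Module.End.one_apply, add_sub_cancel_left]
  refine Le.sum (mul_nonneg hr hc) fun j _ => ?_
  have h1 := (h.pow hr j) (D X) (r * c) (mul_nonneg hr hc) (h X c hc hX)
  refine (h1.smul _).mono ?_
  have h2 : ‖((m.choose (j + 1) : ℕ) : k)‖ ≤ 1 := IsUltrametricDist.norm_natCast_le_one k _
  have h3 : r ^ j ≤ 1 := pow_le_one₀ hr hr1
  have h4 : 0 ≤ r ^ j * (r * c) := mul_nonneg (pow_nonneg hr j) (mul_nonneg hr hc)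
  calc ‖((m.choose (j + 1) : ℕ) : k)‖ * (r ^ j * (r * c)) ≤ 1 * (r ^ j * (r * c)) :=
        mul_le_mul_of_nonneg_right h2 h4
    _ = r ^ j * (r * c) := one_mul _
    _ ≤ 1 * (r * c) := mul_le_mul_of_nonneg_right h3 (mul_nonneg hr hc)
    _ = r * c := one_mul _

/-- norms of prime numbers -/
theorem norm_prime {ℓ q : ℕ} (hℓ : ℓ.Prime) (hq : q.Prime) (hne : q ≠ ℓ) (h : ‖((ℓ : ℕ) : k)‖ < 1) :
    ‖((q : ℕ) : k)‖ = 1 := by
  have hcop : IsCoprime (q : ℤ) (ℓ : ℤ) :=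
    Nat.isCoprime_iff_coprime.mpr ((Nat.coprime_primes hq hℓ).mpr hne)
  obtain ⟨a, b, hab⟩ := hcop
  refine le_antisymm (IsUltrametricDist.norm_natCast_le_one k _) ?_
  by_contra hlt
  push Not at hlt
  have h1 : (1 : k) = (a : k) * (q : k) + (b : k) * (ℓ : k) := by
    exact_mod_cast (congrArg (Int.cast : ℤ → k) hab).symm
  have h2 : ‖(1 : k)‖ ≤ max ‖(a : k) * (q : k)‖ ‖(b : k) * (ℓ : k)‖ := by
    rw [h1]
    exact IsUltrametricDist.norm_add_le_max _ _
  have h3 : ∀ (c : ℤ) (x : k), ‖(c : k) * x‖ ≤ ‖x‖ := by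
    intro c x
    rw [norm_mul]
    exact mul_le_of_le_one_left (norm_nonneg _) (IsUltrametricDist.norm_intCast_le_one k c)
  rw [norm_one] at h2
  rcases le_max_iff.mp h2 with h4 | h4
  · have := h4.trans (h3 a _)
    linarith
  · have := h4.trans (h3 b _)
    linarith

/-- the prime case -/
theorem fix_prime {ℓ : ℕ} (hℓ : ℓ.Prime) (hℓ1 : ‖((ℓ : ℕ) : k)‖ < 1) {r : ℝ} (hr : 0 ≤ r)
    (hr1 : r < 1) (hrℓ : r ^ (ℓ - 1) < ‖((ℓ : ℕ) : k)‖)
    {D : Module.End k (Matrix (Fin n) (Fin n) k)} (h : Contr r D) {q : ℕ} (hq : q.Prime)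
    {X : Matrix (Fin n) (Fin n) k} (hX : ((1 + D) ^ q) X = X) : D X = 0 := by
  by_contra hne
  obtain ⟨c, hc, hle, i, j, hij⟩ := exists_max (D X) hne
  have hq0 : 0 < ‖((q : ℕ) : k)‖ ∧ r ^ (q - 1) < ‖((q : ℕ) : k)‖ := by
    by_cases hqℓ : q = ℓ
    · rw [hqℓ]
      exact ⟨(pow_nonneg hr _).trans_lt hrℓ, hrℓ⟩
    · rw [norm_prime hℓ hq hqℓ hℓ1]
      exact ⟨one_pos, pow_lt_one₀ hr hr1 (Nat.sub_ne_zero_of_lt hq.one_lt)⟩
  have h1 := binom D q X
  rw [hX] at h1
  have h2 : ∑ j ∈ Finset.range q, ((q.choose (j + 1) : ℕ) : k) • (D ^ j) (D X) = 0 := by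
    have h3 := h1.symm
    rwa [add_eq_left] at h3
  obtain ⟨q', rfl⟩ : ∃ q', q = q' + 1 := ⟨q - 1, by have := hq.pos; omega⟩
  rw [Finset.sum_range_succ', pow_zero, Module.End.one_apply, zero_add, Nat.choose_one_right] at h2
  set s : ℝ := max (‖(((q' + 1 : ℕ) : ℕ) : k)‖ * r) (r ^ (q' + 1 - 1)) with hs
  have hs0 : 0 ≤ s := le_max_of_le_right (pow_nonneg hr _)
  have hs1 : s < ‖(((q' + 1 : ℕ) : ℕ) : k)‖ := by
    rw [hs, max_lt_iff]
    exact ⟨mul_lt_of_lt_one_right hq0.1 hr1, hq0.2⟩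
  have h3 : Le (∑ j ∈ Finset.range q', (((q' + 1).choose (j + 1 + 1) : ℕ) : k) •
      (D ^ (j + 1)) (D X)) (s * c) := by
    refine Le.sum (mul_nonneg hs0 hc.le) fun a ha => ?_
    have ha' : a < q' := Finset.mem_range.mp ha
    have h4 := ((h.pow hr (a + 1)) (D X) c hc.le hle).smul
      (((q' + 1).choose (a + 1 + 1) : ℕ) : k)
    refine h4.mono ?_
    rw [← mul_assoc]
    refine mul_le_mul_of_nonneg_right ?_ hc.le
    rcases Nat.lt_or_ge (a + 1 + 1) (q' + 1) with hlt | hge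
    · refine le_trans ?_ (le_max_left _ _)
      have h5 : q' + 1 ∣ (q' + 1).choose (a + 1 + 1) :=
        hq.dvd_choose_self (Nat.succ_ne_zero _) hlt
      obtain ⟨b, hb⟩ := h5
      have h6 : ‖(((q' + 1).choose (a + 1 + 1) : ℕ) : k)‖ ≤ ‖(((q' + 1 : ℕ) : ℕ) : k)‖ := by
        rw [hb, Nat.cast_mul, norm_mul]
        exact mul_le_of_le_one_right (norm_nonneg _) (IsUltrametricDist.norm_natCast_le_one k _)
      refine mul_le_mul h6 ?_ (pow_nonneg hr _) (norm_nonneg _)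
      rw [pow_succ]
      exact mul_le_of_le_one_left hr (pow_le_one₀ hr hr1.le)
    · have h5 : a + 1 + 1 = q' + 1 := by omega
      rw [h5, Nat.choose_self, Nat.cast_one, norm_one, one_mul]
      refine le_trans ?_ (le_max_right _ _)
      have h6 : a + 1 = q' + 1 - 1 := by omega
      rw [h6]
  have h4 : ((((q' + 1 : ℕ) : ℕ) : k) • (D X)) i j = -(∑ j ∈ Finset.range q',
      (((q' + 1).choose (j + 1 + 1) : ℕ) : k) • (D ^ (j + 1)) (D X)) i j := by
    have h5 := congrFun (congrFun h2 i) j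
    rw [Matrix.add_apply] at h5
    exact eq_neg_of_add_eq_zero_right h5
  have h5 := h3 i j
  rw [← norm_neg, ← h4, Matrix.smul_apply, smul_eq_mul, norm_mul, hij] at h5
  have h6 := le_of_mul_le_mul_right h5 hc
  linarith

/-- fixed points of powers -/
theorem fix_pow {ℓ : ℕ} (hℓ : ℓ.Prime) (hℓ1 : ‖((ℓ : ℕ) : k)‖ < 1) {r : ℝ} (hr : 0 ≤ r)
    (hr1 : r < 1) (hrℓ : r ^ (ℓ - 1) < ‖((ℓ : ℕ) : k)‖) (m : ℕ) :
    m ≠ 0 → ∀ {D : Module.End k (Matrix (Fin n) (Fin n) k)}, Contr r D →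
      ∀ {X : Matrix (Fin n) (Fin n) k}, ((1 + D) ^ m) X = X → D X = 0 := by
  induction m using Nat.recOnMul with
  | zero => intro h; exact absurd rfl h
  | one =>
    intro _ D _ X hX
    rw [pow_one, LinearMap.add_apply, Module.End.one_apply] at hX
    exact add_eq_left.mp hX
  | prime q hq =>
    intro _ D hD X hX
    exact fix_prime hℓ hℓ1 hr hr1 hrℓ hD hq hX
  | mul a b iha ihb =>
    intro hab D hD X hX
    have ha : a ≠ 0 := left_ne_zero_of_mul hab
    have hb : b ≠ 0 := right_ne_zero_of_mul hab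
    have h1 : 1 + ((1 + D) ^ a - 1) = (1 + D) ^ a := by abel
    have h2 := ihb hb (hD.one_add_pow hr hr1.le a) (X := X) (by rw [h1, ← pow_mul]; exact hX)
    rw [LinearMap.sub_apply, Module.End.one_apply, sub_eq_zero] at h2
    exact iha ha hD h2

/-- **Commuting with a power.** -/
theorem comm_of_pow {ℓ : ℕ} (hℓ : ℓ.Prime) (hℓ1 : ‖((ℓ : ℕ) : k)‖ < 1) {r : ℝ} (hr : 0 ≤ r)
    (hr1 : r < 1) (hrℓ : r ^ (ℓ - 1) < ‖((ℓ : ℕ) : k)‖) (g : GL (Fin n) k)
    (hg : Le ((g : Matrix (Fin n) (Fin n) k) - 1) r)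
    (hg' : Le (((g⁻¹ : GL (Fin n) k) : Matrix (Fin n) (Fin n) k) - 1) r) {m : ℕ} (hm : m ≠ 0)
    {X : Matrix (Fin n) (Fin n) k}
    (hX : ((g ^ m : GL (Fin n) k) : Matrix (Fin n) (Fin n) k) * X =
      X * ((g ^ m : GL (Fin n) k) : Matrix (Fin n) (Fin n) k)) :
    (g : Matrix (Fin n) (Fin n) k) * X = X * g := by
  let C : GL (Fin n) k → Module.End k (Matrix (Fin n) (Fin n) k) := fun g =>
    LinearMap.mulLeft k (g : Matrix (Fin n) (Fin n) k) ∘ₗ
      LinearMap.mulRight k ((g⁻¹ : GL (Fin n) k) : Matrix (Fin n) (Fin n) k)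
  have hC : ∀ g Y, C g Y = (g : Matrix (Fin n) (Fin n) k) *
      (Y * ((g⁻¹ : GL (Fin n) k) : Matrix (Fin n) (Fin n) k)) := fun g Y => rfl
  have hCm : ∀ a b, C (a * b) = C a * C b := by
    intro a b
    apply LinearMap.ext
    intro Y
    rw [Module.End.mul_apply, hC, hC, hC, _root_.mul_inv_rev, Units.val_mul, Units.val_mul]
    simp only [mul_assoc]
  have hC1 : C 1 = 1 := by
    apply LinearMap.ext
    intro Y
    rw [hC, inv_one, Units.val_one, mul_one, one_mul, Module.End.one_apply]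
  have hCp : ∀ m : ℕ, C (g ^ m) = (C g) ^ m := by
    intro m
    induction m with
    | zero => rw [pow_zero, pow_zero, hC1]
    | succ m ih => rw [pow_succ, pow_succ, hCm, ih]
  have hfix : ∀ (g : GL (Fin n) k) (X : Matrix (Fin n) (Fin n) k), C g X = X ↔
      (g : Matrix (Fin n) (Fin n) k) * X = X * g := by
    intro g X
    rw [hC]
    constructor
    · intro h
      calc (g : Matrix (Fin n) (Fin n) k) * X = (g : Matrix (Fin n) (Fin n) k) * (X *
            ((g⁻¹ : GL (Fin n) k) : Matrix (Fin n) (Fin n) k)) * g := by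
            rw [mul_assoc, mul_assoc, ← Units.val_mul, inv_mul_cancel, Units.val_one, mul_one]
        _ = X * g := by rw [h]
    · intro h
      rw [← mul_assoc, h, mul_assoc, ← Units.val_mul, mul_inv_cancel, Units.val_one, mul_one]
  rw [← hfix]
  have hcon : Contr r (C g - 1) := by
    intro Y c hc hY
    have h1 : (C g - 1) Y = (((g : Matrix (Fin n) (Fin n) k) - 1) * Y +
        Y * (((g⁻¹ : GL (Fin n) k) : Matrix (Fin n) (Fin n) k) - 1)) +
        ((g : Matrix (Fin n) (Fin n) k) - 1) *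
          (Y * (((g⁻¹ : GL (Fin n) k) : Matrix (Fin n) (Fin n) k) - 1)) := by
      rw [LinearMap.sub_apply, hC, Module.End.one_apply]
      noncomm_ring
    rw [h1]
    have h2 : Le (Y * (((g⁻¹ : GL (Fin n) k) : Matrix (Fin n) (Fin n) k) - 1)) (r * c) :=
      (hY.mul hc hr hg').mono (mul_comm c r).le
    refine ((hg.mul hr hc hY).add h2).add ((hg.mul hr (mul_nonneg hr hc) h2).mono ?_)
    exact mul_le_of_le_one_left (mul_nonneg hr hc) hr1.le
  have h1 : (1 : Module.End k (Matrix (Fin n) (Fin n) k)) + (C g - 1) = C g := by abel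
  have h2 := fix_pow hℓ hℓ1 hr hr1 hrℓ m hm hcon (X := X) (by
    rw [h1, ← hCp]
    exact (hfix _ _).mpr hX)
  rw [LinearMap.sub_apply, Module.End.one_apply, sub_eq_zero] at h2
  exact h2

/-- the entries of `g - 1` have norm at most `r` -/
def Near (r : ℝ) (g : GL (Fin n) k) : Prop :=
  ∀ i j, ‖(g : Matrix (Fin n) (Fin n) k) i j - (1 : Matrix (Fin n) (Fin n) k) i j‖ ≤ r

end norm

variable {Γ : Type} [Group Γ] [TopologicalSpace Γ] [IsTopologicalGroup Γ] [CompactSpace Γ]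
  {k : Type} [NormedField k] [IsUltrametricDist k] {n : ℕ}

/-- **Explicit stable subgroups.**  A subgroup `N` of `H` is stable if `ρ (N)` is conjugate to a group
of matrices whose difference from the identity matrix has entries of norm at most `r`, where `r < 1`
and `r ^ (ℓ - 1) < |ℓ|`, `ℓ` the residue characteristic. -/
theorem stable_of_close (H : Subgroup Γ) (ρ : H →* GL (Fin n) k) (N : Subgroup Γ) (hNH : N ≤ H)
    {ℓ : ℕ} (hℓ : ℓ.Prime) (hℓ1 : ‖((ℓ : ℕ) : k)‖ < 1) {r : ℝ} (hr1 : r < 1)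
    (hrℓ : r ^ (ℓ - 1) < ‖((ℓ : ℕ) : k)‖) (P : GL (Fin n) k)
    (hN : ∀ x : H, (x : Γ) ∈ N → Near r (P * ρ x * P⁻¹)) :
    Stable H ρ N := by
  refine ⟨hNH, fun U hU hUN A hA x hx => ?_⟩
  rcases Nat.eq_zero_or_pos n with hn0 | hn0
  · subst hn0
    exact Matrix.ext fun i => i.elim0
  have hr : 0 ≤ r := (norm_nonneg _).trans (hN x hx ⟨0, hn0⟩ ⟨0, hn0⟩)
  -- a power of `x` is in `U`
  have hfi : U.FiniteIndex := fi_of_open U hU
  obtain ⟨m, hm, -, hxm⟩ := Subgroup.exists_pow_mem_of_index_ne_zero (H := U)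
    Subgroup.FiniteIndex.index_ne_zero (x : Γ)
  set g : GL (Fin n) k := P * ρ x * P⁻¹ with hg
  have hgi : g⁻¹ = P * ρ x⁻¹ * P⁻¹ := by
    rw [hg, map_inv]
    group
  have h1 : Le ((g : Matrix (Fin n) (Fin n) k) - 1) r := fun i j => hN x hx i j
  have h2 : Le (((g⁻¹ : GL (Fin n) k) : Matrix (Fin n) (Fin n) k) - 1) r := by
    intro i j
    rw [hgi]
    exact hN x⁻¹ (N.inv_mem hx) i j
  have h3 := hA (x ^ m) (by rw [Subgroup.coe_pow]; exact hxm)
  let B : Matrix (Fin n) (Fin n) k := (P : Matrix (Fin n) (Fin n) k) * A *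
    ((P⁻¹ : GL (Fin n) k) : Matrix (Fin n) (Fin n) k)
  have key : ∀ y : GL (Fin n) k, (y : Matrix (Fin n) (Fin n) k) * A = A * y ↔
      ((P * y * P⁻¹ : GL (Fin n) k) : Matrix (Fin n) (Fin n) k) * B =
        B * ((P * y * P⁻¹ : GL (Fin n) k) : Matrix (Fin n) (Fin n) k) := by
    intro y
    have hPi : ((P⁻¹ : GL (Fin n) k) : Matrix (Fin n) (Fin n) k) * (P : Matrix (Fin n) (Fin n) k)
        = 1 := by rw [← Units.val_mul, inv_mul_cancel, Units.val_one]
    have e1 : ((P * y * P⁻¹ : GL (Fin n) k) : Matrix (Fin n) (Fin n) k) * B =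
        (P : Matrix (Fin n) (Fin n) k) * ((y : Matrix (Fin n) (Fin n) k) * A) *
          ((P⁻¹ : GL (Fin n) k) : Matrix (Fin n) (Fin n) k) := by
      change _ * ((P : Matrix (Fin n) (Fin n) k) * A *
        ((P⁻¹ : GL (Fin n) k) : Matrix (Fin n) (Fin n) k)) = _
      rw [Units.val_mul, Units.val_mul]
      calc (P : Matrix (Fin n) (Fin n) k) * y * ((P⁻¹ : GL (Fin n) k) : Matrix (Fin n) (Fin n) k) *
            ((P : Matrix (Fin n) (Fin n) k) * A *
              ((P⁻¹ : GL (Fin n) k) : Matrix (Fin n) (Fin n) k)) =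
          (P : Matrix (Fin n) (Fin n) k) * y * (((P⁻¹ : GL (Fin n) k) : Matrix (Fin n) (Fin n) k) *
            (P : Matrix (Fin n) (Fin n) k)) * (A *
              ((P⁻¹ : GL (Fin n) k) : Matrix (Fin n) (Fin n) k)) := by simp only [mul_assoc]
        _ = _ := by rw [hPi, mul_one]; simp only [mul_assoc]
    have e2 : B * ((P * y * P⁻¹ : GL (Fin n) k) : Matrix (Fin n) (Fin n) k) =
        (P : Matrix (Fin n) (Fin n) k) * (A * (y : Matrix (Fin n) (Fin n) k)) *
          ((P⁻¹ : GL (Fin n) k) : Matrix (Fin n) (Fin n) k) := by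
      change ((P : Matrix (Fin n) (Fin n) k) * A *
        ((P⁻¹ : GL (Fin n) k) : Matrix (Fin n) (Fin n) k)) * _ = _
      rw [Units.val_mul, Units.val_mul]
      calc (P : Matrix (Fin n) (Fin n) k) * A * ((P⁻¹ : GL (Fin n) k) : Matrix (Fin n) (Fin n) k) *
            ((P : Matrix (Fin n) (Fin n) k) * y *
              ((P⁻¹ : GL (Fin n) k) : Matrix (Fin n) (Fin n) k)) =
          (P : Matrix (Fin n) (Fin n) k) * A * (((P⁻¹ : GL (Fin n) k) : Matrix (Fin n) (Fin n) k) *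
            (P : Matrix (Fin n) (Fin n) k)) * (y *
              ((P⁻¹ : GL (Fin n) k) : Matrix (Fin n) (Fin n) k)) := by simp only [mul_assoc]
        _ = _ := by rw [hPi, mul_one]; simp only [mul_assoc]
    rw [e1, e2]
    constructor
    · intro h; rw [h]
    · intro h
      have h4 := congrArg (fun M => ((P⁻¹ : GL (Fin n) k) : Matrix (Fin n) (Fin n) k) * M *
        (P : Matrix (Fin n) (Fin n) k)) h
      have e3 : ∀ Z : Matrix (Fin n) (Fin n) k,
          ((P⁻¹ : GL (Fin n) k) : Matrix (Fin n) (Fin n) k) * ((P : Matrix (Fin n) (Fin n) k) * Z *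
          ((P⁻¹ : GL (Fin n) k) : Matrix (Fin n) (Fin n) k)) * (P : Matrix (Fin n) (Fin n) k) =
            Z := by
        intro Z
        calc _ = (((P⁻¹ : GL (Fin n) k) : Matrix (Fin n) (Fin n) k) *
              (P : Matrix (Fin n) (Fin n) k)) * Z * (((P⁻¹ : GL (Fin n) k) :
              Matrix (Fin n) (Fin n) k) * (P : Matrix (Fin n) (Fin n) k)) := by
              simp only [mul_assoc]
          _ = Z := by rw [hPi, one_mul, mul_one]
      rwa [e3, e3] at h4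
  rw [key]
  refine comm_of_pow hℓ hℓ1 hr hr1 hrℓ g h1 h2 (m := m) (Nat.pos_iff_ne_zero.mp hm) ?_
  have h5 := (key (ρ (x ^ m))).mp h3
  have h6 : g ^ m = P * ρ (x ^ m) * P⁻¹ := by
    rw [hg, map_pow, conj_pow]
  rw [h6]
  exact h5

end Run7.h427.PL
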